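import Mathlib

/-! Domb numbers: recurrence and a divisibility. -/

set_option autoImplicit false

namespace Pool.Agent.Q278.DB

open Finset

/-- the Domb numbers -/
def s (n : ℕ) : ℕ := ∑ k ∈ range (n + 1), n.choose k ^ 2 * (2 * k).choose k * (2 * (n - k)).choose (n - k)

/-- `C(2k,k) / k!²` -/
def c (k : ℕ) : ℚ := ((2 * k).choose k : ℚ) / (k.factorial : ℚ) ^ 2

lemma fac_ne (k : ℕ) : (k.factorial : ℚ) ≠ 0 := by exact_mod_cast k.factorial_ne_zero

lemma c_zero : c 0 = 1 := by simp [c]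

lemma c_rec (k : ℕ) : ((k : ℚ) + 1) ^ 3 * c (k + 1) = 2 * (2 * k + 1) * c k := by
  unfold c
  have h := Nat.succ_mul_centralBinom_succ k
  unfold Nat.centralBinom at h
  have h2 := congrArg (Nat.cast : ℕ → ℚ) h
  push_cast at h2
  rw [Nat.factorial_succ]
  push_cast
  have h3 := fac_ne k
  have h4 : ((k : ℚ) + 1) ≠ 0 := by positivity
  field_simp
  linear_combination h2

/-- convolution sums -/
def M (N : ℕ) (P : ℚ → ℚ → ℚ) : ℚ := ∑ x ∈ antidiagonal N, c x.1 * c x.2 * P x.1 x.2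

lemma M_ext {N : ℕ} {P Q : ℚ → ℚ → ℚ} (h : ∀ k l : ℕ, k + l = N → P k l = Q k l) : M N P = M N Q := by
  unfold M
  refine sum_congr rfl fun x hx => ?_
  rw [HasAntidiagonal.mem_antidiagonal] at hx
  rw [h _ _ hx]

lemma M_add (N : ℕ) (P Q : ℚ → ℚ → ℚ) : M N (fun k l => P k l + Q k l) = M N P + M N Q := by
  unfold M
  rw [← sum_add_distrib]
  exact sum_congr rfl fun x _ => by ring

lemma M_smul (N : ℕ) (a : ℚ) (P : ℚ → ℚ → ℚ) : M N (fun k l => a * P k l) = a * M N P := by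
  unfold M
  rw [mul_sum]
  exact sum_congr rfl fun x _ => by ring

lemma shift1 (N : ℕ) (Q : ℚ → ℚ → ℚ) :
    M (N + 1) (fun k l => k ^ 3 * Q (k - 1) l) = M N (fun k l => 2 * (2 * k + 1) * Q k l) := by
  unfold M
  rw [Finset.Nat.sum_antidiagonal_succ]
  simp only [Nat.cast_zero, ne_eq, OfNat.ofNat_ne_zero, not_false_eq_true, zero_pow, zero_mul, mul_zero,
    zero_add]
  refine sum_congr rfl fun x _ => ?_
  have h := c_rec x.1
  push_cast
  rw [add_sub_cancel_right]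
  linear_combination c x.2 * Q x.1 x.2 * h

lemma shift2 (N : ℕ) (Q : ℚ → ℚ → ℚ) :
    M (N + 1) (fun k l => l ^ 3 * Q k (l - 1)) = M N (fun k l => 2 * (2 * l + 1) * Q k l) := by
  unfold M
  rw [Finset.Nat.sum_antidiagonal_succ']
  simp only [Nat.cast_zero, ne_eq, OfNat.ofNat_ne_zero, not_false_eq_true, zero_pow, zero_mul, mul_zero,
    zero_add]
  refine sum_congr rfl fun x _ => ?_
  have h := c_rec x.2
  push_cast
  rw [add_sub_cancel_right]
  linear_combination c x.1 * Q x.1 x.2 * h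

/-- `U_N = s_N / N!²` -/
def U (N : ℕ) : ℚ := M N (fun _ _ => 1)

/-- `∑ k l c_k c_l` -/
def P1 (N : ℕ) : ℚ := M N (fun k l => k * l)

/-- `∑ (k l)² c_k c_l` -/
def P2 (N : ℕ) : ℚ := M N (fun k l => (k * l) ^ 2)

lemma relA (N : ℕ) : ((N : ℚ) + 1) ^ 2 * U (N + 1) - 3 * P1 (N + 1) = 4 * U N := by
  have h1 := shift1 N (fun _ _ => 1)
  have h2 := shift2 N (fun _ _ => 1)
  have h3 : M (N + 1) (fun k l => k ^ 3 * 1) + M (N + 1) (fun k l => l ^ 3 * 1) =
      ((N : ℚ) + 1) ^ 3 * U (N + 1) + (-3 * ((N : ℚ) + 1)) * P1 (N + 1) := by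
    unfold U P1
    rw [← M_add, ← M_smul, ← M_smul, ← M_add]
    refine M_ext fun k l hkl => ?_
    have : (N : ℚ) + 1 = k + l := by exact_mod_cast hkl.symm
    rw [this]
    ring
  have h4 : M N (fun k l => 2 * (2 * k + 1) * 1) + M N (fun k l => 2 * (2 * l + 1) * 1) =
      (4 * ((N : ℚ) + 1)) * U N := by
    unfold U
    rw [← M_add, ← M_smul]
    refine M_ext fun k l hkl => ?_
    have : (N : ℚ) = k + l := by exact_mod_cast hkl.symm
    rw [this]
    ring
  have h5 : ((N : ℚ) + 1) ≠ 0 := by positivity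
  apply mul_left_cancel₀ h5
  linear_combination h1 + h2 - h3 + h4

lemma relB (N : ℕ) : ((N : ℚ) + 1) ^ 2 * P1 (N + 1) - 2 * P2 (N + 1) = 8 * P1 N + 2 * N * U N := by
  have h1 := shift1 N (fun _ l => l)
  have h2 := shift2 N (fun k _ => k)
  have h3 : M (N + 1) (fun k l => k ^ 3 * l) + M (N + 1) (fun k l => l ^ 3 * k) =
      ((N : ℚ) + 1) ^ 2 * P1 (N + 1) + (-2) * P2 (N + 1) := by
    unfold P1 P2
    rw [← M_add, ← M_smul, ← M_smul, ← M_add]
    refine M_ext fun k l hkl => ?_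
    have : (N : ℚ) + 1 = k + l := by exact_mod_cast hkl.symm
    rw [this]
    ring
  have h4 : M N (fun k l => 2 * (2 * k + 1) * l) + M N (fun k l => 2 * (2 * l + 1) * k) =
      8 * P1 N + (2 * (N : ℚ)) * U N := by
    unfold U P1
    rw [← M_add, ← M_smul, ← M_smul, ← M_add]
    refine M_ext fun k l hkl => ?_
    have : (N : ℚ) = k + l := by exact_mod_cast hkl.symm
    rw [this]
    ring
  linear_combination h1 + h2 - h3 + h4

lemma relC (N : ℕ) : ((N : ℚ) + 1) * P2 (N + 1) = 4 * ((N : ℚ) - 1) * P1 N + 2 * (N : ℚ) ^ 2 * U N := by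
  have h1 := shift1 N (fun _ l => l ^ 2)
  have h2 := shift2 N (fun k _ => k ^ 2)
  have h3 : M (N + 1) (fun k l => k ^ 3 * l ^ 2) + M (N + 1) (fun k l => l ^ 3 * k ^ 2) =
      ((N : ℚ) + 1) * P2 (N + 1) := by
    unfold P2
    rw [← M_add, ← M_smul]
    refine M_ext fun k l hkl => ?_
    have : (N : ℚ) + 1 = k + l := by exact_mod_cast hkl.symm
    rw [this]
    ring
  have h4 : M N (fun k l => 2 * (2 * k + 1) * l ^ 2) + M N (fun k l => 2 * (2 * l + 1) * k ^ 2) =
      (4 * ((N : ℚ) - 1)) * P1 N + (2 * (N : ℚ) ^ 2) * U N := by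
    unfold U P1
    rw [← M_add, ← M_smul, ← M_smul, ← M_add]
    refine M_ext fun k l hkl => ?_
    have : (N : ℚ) = k + l := by exact_mod_cast hkl.symm
    rw [this]
    ring
  linear_combination h1 + h2 - h3 + h4

lemma s_U (n : ℕ) : (s n : ℚ) = (n.factorial : ℚ) ^ 2 * U n := by
  unfold s U M
  rw [Finset.Nat.sum_antidiagonal_eq_sum_range_succ_mk, mul_sum]
  push_cast
  refine sum_congr rfl fun k hk => ?_
  rw [mem_range, Nat.lt_succ_iff] at hk
  have h := Nat.choose_mul_factorial_mul_factorial hk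
  have h' := congrArg (Nat.cast : ℕ → ℚ) h
  push_cast at h'
  unfold c
  have h1 := fac_ne k
  have h2 := fac_ne (n - k)
  have h3 : (n.choose k : ℚ) = n.factorial / (k.factorial * (n - k).factorial) := by
    rw [eq_div_iff (mul_ne_zero h1 h2)]; linear_combination h'
  rw [h3]
  field_simp

/-- Domb's recurrence -/
lemma domb (n : ℕ) : ((n : ℚ) + 2) ^ 3 * s (n + 2) =
    (20 * ((n : ℚ) + 1) ^ 3 + 30 * ((n : ℚ) + 1) ^ 2 + 18 * ((n : ℚ) + 1) + 4) * s (n + 1) -
      64 * ((n : ℚ) + 1) ^ 3 * s n := by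
  have a1 := relA (n + 1)
  have a0 := relA n
  have b1 := relB (n + 1)
  have c1 := relC (n + 1)
  rw [s_U, s_U, s_U, Nat.factorial_succ (n + 1), Nat.factorial_succ n]
  rw [show n + 1 + 1 = n + 2 from rfl] at *
  push_cast at *
  generalize (n.factorial : ℚ) = f at *
  generalize U (n + 2) = u2 at *
  generalize U (n + 1) = u1 at *
  generalize U n = u0 at *
  generalize P1 (n + 2) = p2 at *
  generalize P1 (n + 1) = p1 at *
  generalize P2 (n + 2) = q2 at *
  generalize (n : ℚ) = x at *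
  linear_combination f ^ 2 * (x + 1) ^ 2 * ((x + 2) ^ 3 * a1 + 3 * (x + 2) * b1 + 6 * c1 +
    (-16) * (x + 1) * a0)

/-- closed form of the weighted sum -/
lemma closed (m : ℕ) : 6 * ∑ n ∈ range (m + 1), (3 * (n : ℚ) ^ 2 + n) * 16 ^ (m - n) * s n =
    ((m : ℚ) + 1) ^ 3 * (s (m + 1) - 4 * s m) := by
  induction m with
  | zero =>
    have s0 : s 0 = 1 := by decide
    have s1 : s 1 = 4 := by decide
    simp [s0, s1]
  | succ m ih =>
    rw [sum_range_succ, Nat.sub_self]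
    have h1 : ∑ n ∈ range (m + 1), (3 * (n : ℚ) ^ 2 + n) * 16 ^ (m + 1 - n) * (s n : ℚ) =
        16 * ∑ n ∈ range (m + 1), (3 * (n : ℚ) ^ 2 + n) * 16 ^ (m - n) * (s n : ℚ) := by
      rw [mul_sum]
      refine sum_congr rfl fun n hn => ?_
      rw [mem_range, Nat.lt_succ_iff] at hn
      rw [show m + 1 - n = (m - n) + 1 by omega, pow_succ]
      ring
    rw [h1]
    have h2 := domb m
    rw [show m + 1 + 1 = m + 2 from rfl]
    push_cast
    linear_combination 16 * ih - h2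

end Pool.Agent.Q278.DB
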