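import Mathlib
import Pool.Agent.Q278.DB.Rec

/-! `s_{n+1} - 4 s_n = 12 n X_n`. -/

set_option autoImplicit false

namespace Pool.Agent.Q278.DB

open Finset PowerSeries

/-- `∑ x^a / a!²` -/
noncomputable def B : PowerSeries ℚ := PowerSeries.mk fun a => 1 / (a.factorial : ℚ) ^ 2

/-- derivative -/
noncomputable abbrev D : Derivation ℚ (PowerSeries ℚ) (PowerSeries ℚ) := PowerSeries.derivative ℚ

lemma coeff_T (F : PowerSeries ℚ) (n : ℕ) : coeff n (D (X * D F)) = ((n : ℚ) + 1) ^ 2 * coeff (n + 1) F := by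
  have h1 : coeff n (D (X * D F)) = coeff (n + 1) (X * D F) * ((n : ℚ) + 1) := coeff_derivative _ n
  have h2 : coeff n (D F) = coeff (n + 1) F * ((n : ℚ) + 1) := coeff_derivative _ n
  rw [h1, coeff_succ_X_mul, h2]
  ring

lemma ode : D (X * D B) = B := by
  ext n
  rw [coeff_T]
  unfold B
  rw [coeff_mk, coeff_mk, Nat.factorial_succ]
  push_cast
  have h := fac_ne n
  have h2 : ((n : ℚ) + 1) ≠ 0 := by positivity
  field_simp

lemma T2 : D (X * D (B ^ 2)) = 2 * (X * (D B) ^ 2) + 2 * B ^ 2 := by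
  have h1 : X * D (B ^ 2) = 2 * (B * (X * D B)) := by
    rw [Derivation.leibniz_pow]
    simp only [smul_eq_mul, nsmul_eq_mul]
    push_cast
    ring
  rw [h1]
  have h2 : D (2 * (B * (X * D B))) = 2 * D (B * (X * D B)) := by
    rw [two_mul, map_add, two_mul]
  rw [h2, Derivation.leibniz, ode]
  simp only [smul_eq_mul]
  ring

lemma T4 : D (X * D (B ^ 4)) = 12 * (B ^ 2 * (X * (D B) ^ 2)) + 4 * B ^ 4 := by
  have h1 : X * D (B ^ 4) = (4 : ℕ) • (B ^ 3 * (X * D B)) := by
    rw [Derivation.leibniz_pow]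
    simp only [smul_eq_mul, nsmul_eq_mul]
    push_cast
    ring
  rw [h1, map_nsmul, Derivation.leibniz, ode, Derivation.leibniz_pow]
  simp only [smul_eq_mul, nsmul_eq_mul]
  push_cast
  ring

lemma coeff_B2 (n : ℕ) : coeff n (B ^ 2) = c n := by
  rw [pow_two, coeff_mul, Finset.Nat.sum_antidiagonal_eq_sum_range_succ_mk]
  unfold B c
  have h1 : ((2 * n).choose n : ℚ) = ∑ a ∈ range (n + 1), (n.choose a : ℚ) ^ 2 := by
    have := Nat.sum_range_choose_sq n
    rw [← this]
    push_cast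
    rfl
  rw [h1, sum_div]
  refine sum_congr rfl fun k hk => ?_
  rw [mem_range, Nat.lt_succ_iff] at hk
  rw [coeff_mk, coeff_mk]
  have h := Nat.choose_mul_factorial_mul_factorial hk
  have h' := congrArg (Nat.cast : ℕ → ℚ) h
  push_cast at h'
  have h1 := fac_ne k
  have h2 := fac_ne (n - k)
  have h4 := fac_ne n
  have h3 : (n.choose k : ℚ) = n.factorial / (k.factorial * (n - k).factorial) := by
    rw [eq_div_iff (mul_ne_zero h1 h2)]; linear_combination h'
  rw [h3]
  field_simp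

lemma coeff_B4 (n : ℕ) : coeff n (B ^ 4) = U n := by
  have : B ^ 4 = B ^ 2 * B ^ 2 := by ring
  rw [this, coeff_mul]
  unfold U M
  refine sum_congr rfl fun x _ => ?_
  rw [coeff_B2, coeff_B2]; ring

lemma coeff_w (n : ℕ) : coeff n (X * (D B) ^ 2) = c n * ((n : ℚ) / (n + 1)) := by
  have h1 := congrArg (coeff n) T2
  rw [coeff_T, map_add, coeff_B2] at h1
  have e1 : coeff n (2 * (X * (D B) ^ 2)) = 2 * coeff n (X * (D B) ^ 2) := by
    rw [two_mul, map_add, two_mul]
  have e2 : coeff n (2 * B ^ 2) = 2 * c n := by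
    rw [two_mul, map_add, coeff_B2, two_mul]
  rw [e1, e2] at h1
  have h2 := c_rec n
  have h3 : ((n : ℚ) + 1) ≠ 0 := by positivity
  rw [mul_div_assoc', eq_div_iff h3]
  linear_combination (-1 / 2) * ((n : ℚ) + 1) * h1 + (1 / 2) * h2

lemma U_rel (n : ℕ) : ((n : ℚ) + 1) ^ 2 * U (n + 1) - 4 * U n =
    12 * ∑ x ∈ antidiagonal n, c x.1 * (c x.2 * ((x.2 : ℚ) / (x.2 + 1))) := by
  have h1 := congrArg (coeff n) T4
  rw [coeff_T, map_add, coeff_B4] at h1
  have e1 : coeff n (12 * (B ^ 2 * (X * (D B) ^ 2))) = 12 * coeff n (B ^ 2 * (X * (D B) ^ 2)) := by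
    have : (12 : PowerSeries ℚ) = C (12 : ℚ) := by rw [map_ofNat]
    rw [this, coeff_C_mul]
  have e2 : coeff n (4 * B ^ 4) = 4 * U n := by
    have : (4 : PowerSeries ℚ) = C (4 : ℚ) := by rw [map_ofNat]
    rw [this, coeff_C_mul, coeff_B4]
  rw [e1, e2, coeff_mul] at h1
  rw [h1]
  have : ∀ x ∈ antidiagonal n, coeff x.1 (B ^ 2) * coeff x.2 (X * (D B) ^ 2) =
      c x.1 * (c x.2 * ((x.2 : ℚ) / (x.2 + 1))) := by
    intro x _
    rw [coeff_B2, coeff_w]
  rw [sum_congr rfl this]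
  ring

/-- the integer `X_n` -/
def Xn (n : ℕ) : ℕ := ∑ k ∈ range (n + 1), n.choose k * (n - 1).choose (n - k - 1) *
  (2 * k).choose k * catalan (n - k) * (if k < n then 1 else 0)

lemma s_rel (n : ℕ) (hn : 1 ≤ n) : (s (n + 1) : ℚ) - 4 * s n = 12 * n * Xn n := by
  have h := U_rel n
  rw [s_U, s_U, Nat.factorial_succ]
  push_cast
  have h2 : (((n : ℚ) + 1) * n.factorial) ^ 2 * U (n + 1) - 4 * ((n.factorial : ℚ) ^ 2 * U n) =
      (n.factorial : ℚ) ^ 2 * (((n : ℚ) + 1) ^ 2 * U (n + 1) - 4 * U n) := by ring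
  rw [h2, h, Finset.Nat.sum_antidiagonal_eq_sum_range_succ_mk]
  unfold Xn
  push_cast
  rw [mul_sum, mul_sum, mul_sum]
  refine sum_congr rfl fun k hk => ?_
  rw [mem_range, Nat.lt_succ_iff] at hk
  rcases Nat.eq_or_lt_of_le hk with rfl | hlt
  · simp
  · rw [if_pos hlt]
    obtain ⟨j, hj⟩ : ∃ j, n = k + (j + 1) := ⟨n - k - 1, by omega⟩
    subst hj
    rw [Nat.add_sub_cancel_left, show j + 1 - 1 = j by omega, show k + (j + 1) - 1 = k + j by omega]
    have hc := congrArg (Nat.cast : ℕ → ℚ) (succ_mul_catalan_eq_centralBinom (j + 1))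
    unfold Nat.centralBinom at hc
    have e1 := congrArg (Nat.cast : ℕ → ℚ) (Nat.add_choose_mul_factorial_mul_factorial k (j + 1))
    have e2 := congrArg (Nat.cast : ℕ → ℚ) (Nat.add_choose_mul_factorial_mul_factorial k j)
    have e3 : (k + j).choose j = (k + j).choose k := Nat.choose_symm_add.symm
    have e4 : (k + (j + 1)).choose (j + 1) = (k + (j + 1)).choose k := Nat.choose_symm_add.symm
    rw [e4] at e1
    rw [e3] at e2
    unfold c
    rw [e3]
    push_cast at *
    have f1 := fac_ne k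
    have f2 := fac_ne j
    rw [show k + (j + 1) = (k + j) + 1 by ring, Nat.factorial_succ, Nat.factorial_succ] at *
    push_cast at *
    have e1' : ((k + j + 1).choose k : ℚ) = ((k : ℚ) + j + 1) * (k + j).factorial /
        (k.factorial * (((j : ℚ) + 1) * j.factorial)) := by
      rw [eq_div_iff (by positivity)]
      linear_combination e1
    have e2' : ((k + j).choose k : ℚ) = (k + j).factorial / (k.factorial * j.factorial) := by
      rw [eq_div_iff (by positivity)]
      linear_combination e2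
    have hc' : ((2 * (j + 1)).choose (j + 1) : ℚ) = ((j : ℚ) + 1 + 1) * catalan (j + 1) := by
      linear_combination -hc
    rw [e1', e2', hc']
    have f3 : ((j : ℚ) + 1) ≠ 0 := by positivity
    have f4 : ((j : ℚ) + 1 + 1) ≠ 0 := by positivity
    field_simp
    ring

end Pool.Agent.Q278.DB
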