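import Mathlib
import Pool.Agent.Q278.RM.Fin

/-! Harmonic sums modulo `p`. -/

set_option autoImplicit false

namespace Pool.Agent.Q278.DB

open Finset

section ring

variable {R : Type*} [CommRing R] (iv : ℕ → R)

/-- `H_k` -/
def h (k : ℕ) : R := ∑ j ∈ range k, iv (j + 1)

/-- `∑_{j<k} 1/(2j+1)` -/
def o (k : ℕ) : R := ∑ j ∈ range k, iv (2 * j + 1)

/-- `H_k^{(2)}` -/
def h2 (k : ℕ) : R := ∑ j ∈ range k, iv (j + 1) ^ 2

/-- `∑_{j<k} 1/(2j+1)²` -/
def o2 (k : ℕ) : R := ∑ j ∈ range k, iv (2 * j + 1) ^ 2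

lemma h_succ (k : ℕ) : h iv (k + 1) = h iv k + iv (k + 1) := by unfold h; rw [sum_range_succ]
lemma o_succ (k : ℕ) : o iv (k + 1) = o iv k + iv (2 * k + 1) := by unfold o; rw [sum_range_succ]
lemma h2_succ (k : ℕ) : h2 iv (k + 1) = h2 iv k + iv (k + 1) ^ 2 := by unfold h2; rw [sum_range_succ]
lemma o2_succ (k : ℕ) : o2 iv (k + 1) = o2 iv k + iv (2 * k + 1) ^ 2 := by unfold o2; rw [sum_range_succ]

lemma sum_oo (n : ℕ) : 2 * ∑ k ∈ range n, o iv (k + 1) * iv (2 * k + 1) = o iv n ^ 2 + o2 iv n := by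
  induction n with
  | zero => simp [o, o2]
  | succ n ih =>
    rw [sum_range_succ, mul_add, ih, o_succ, o2_succ]
    ring

lemma sum_hh (n : ℕ) : 2 * ∑ k ∈ range n, h iv k * iv (k + 1) = h iv n ^ 2 - h2 iv n := by
  induction n with
  | zero => simp [h, h2]
  | succ n ih =>
    rw [sum_range_succ, mul_add, ih, h_succ, h2_succ]
    ring

variable (p : ℕ) (hiv : ∀ j, 1 ≤ j → j < p → (j : R) * iv j = 1)

include hiv in
lemma conv (m : ℕ) (hm : m < p) : ∑ i ∈ range m, h iv (m - 1 - i) * iv (i + 1) = h iv m ^ 2 - h2 iv m := by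
  induction m with
  | zero => simp [h, h2]
  | succ m ih =>
    rw [sum_range_succ, show m + 1 - 1 - m = 0 by omega]
    have h0 : h iv 0 = 0 := by simp [h]
    have h1 : ∀ i ∈ range m, h iv (m + 1 - 1 - i) * iv (i + 1) =
        h iv (m - 1 - i) * iv (i + 1) + iv (m + 1) * (iv (i + 1) + iv (m - 1 - i + 1)) := by
      intro i hi
      rw [mem_range] at hi
      rw [show m + 1 - 1 - i = (m - 1 - i) + 1 by omega, h_succ]
      have a1 := hiv (i + 1) (by omega) (by omega)
      have a2 := hiv (m - 1 - i + 1) (by omega) (by omega)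
      have a3 := hiv (m + 1) (by omega) hm
      have a4 : ((m + 1 : ℕ) : R) = ((i + 1 : ℕ) : R) + ((m - 1 - i + 1 : ℕ) : R) := by
        rw [← Nat.cast_add]; congr 1; omega
      rw [a4] at a3
      generalize iv (i + 1) = x at *
      generalize iv (m - 1 - i + 1) = y at *
      generalize iv (m + 1) = z at *
      generalize ((i + 1 : ℕ) : R) = a at *
      generalize ((m - 1 - i + 1 : ℕ) : R) = b at *
      linear_combination (z * y) * a1 + (z * x) * a2 - x * y * a3
    rw [h0, zero_mul, add_zero, sum_congr rfl h1, sum_add_distrib, ih (by omega), ← mul_sum,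
      sum_add_distrib]
    have h3 : ∑ i ∈ range m, iv (m - 1 - i + 1) = h iv m := by
      unfold h
      rw [sum_range_reflect (fun i => iv (i + 1)) m]
    have h4 : ∑ i ∈ range m, iv (i + 1) = h iv m := rfl
    rw [h3, h4, h_succ, h2_succ]
    ring

include hiv in
/-- even part of the harmonic numbers -/
lemma iv_two (_h2p : 2 < p) (j : ℕ) (h1 : 1 ≤ j) (h3 : 2 * j < p) : 2 * iv (2 * j) = iv j := by
  have a1 := hiv (2 * j) (by omega) h3
  have a2 := hiv j h1 (by omega)
  push_cast at a1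
  linear_combination iv j * a1 - 2 * iv (2 * j) * a2

include hiv in
lemma h_even (h2p : 2 < p) (k : ℕ) (hk : 2 * k < p) : 2 * h iv (2 * k) = 2 * o iv k + h iv k := by
  induction k with
  | zero => simp [h, o]
  | succ k ih =>
    rw [show 2 * (k + 1) = 2 * k + 1 + 1 by ring, h_succ, h_succ, o_succ, h_succ]
    have h4 := ih (by omega)
    have h5 := iv_two iv p hiv h2p (k + 1) (by omega) hk
    rw [show 2 * (k + 1) = 2 * k + 1 + 1 by ring] at h5
    linear_combination h4 + h5

include hiv in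
lemma h_odd (h2p : 2 < p) (k : ℕ) (hk : 2 * k + 1 < p) : 2 * h iv (2 * k + 1) = 2 * o iv (k + 1) + h iv k := by
  rw [h_succ, o_succ, mul_add, h_even iv p hiv h2p k (by omega)]
  ring

include hiv in
lemma h2_even (h2p : 2 < p) (k : ℕ) (hk : 2 * k < p) : 4 * h2 iv (2 * k) = 4 * o2 iv k + h2 iv k := by
  induction k with
  | zero => simp [h2, o2]
  | succ k ih =>
    rw [show 2 * (k + 1) = 2 * k + 1 + 1 by ring, h2_succ, h2_succ, o2_succ, h2_succ]
    have h4 := ih (by omega)
    have h5 := iv_two iv p hiv h2p (k + 1) (by omega) hk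
    rw [show 2 * (k + 1) = 2 * k + 1 + 1 by ring] at h5
    linear_combination h4 + (2 * iv (2 * k + 1 + 1) + iv (k + 1)) * h5

end ring

/-! modulo `p` -/

variable (p : ℕ) [hp : Fact p.Prime]

/-- inverses modulo `p` -/
def u (j : ℕ) : ZMod p := (j : ZMod p)⁻¹

lemma u_mul (j : ℕ) (h1 : 1 ≤ j) (h2 : j < p) : (j : ZMod p) * u p j = 1 := by
  apply mul_inv_cancel₀
  intro h
  rw [ZMod.natCast_eq_zero_iff] at h
  exact absurd (Nat.le_of_dvd h1 h) (by omega)

lemma u_refl (j : ℕ) (h2 : j < p) : u p (p - j) = -u p j := by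
  unfold u
  rw [Nat.cast_sub h2.le, ZMod.natCast_self, zero_sub, inv_neg]

lemma two_ne (h2p : 2 < p) : (2 : ZMod p) ≠ 0 := by
  intro h
  have : ((2 : ℕ) : ZMod p) = 0 := by exact_mod_cast h
  rw [ZMod.natCast_eq_zero_iff] at this
  exact absurd (Nat.le_of_dvd (by norm_num) this) (by omega)

lemma h_full (h2p : 2 < p) : h (u p) (p - 1) = 0 := by
  have h1 : h (u p) (p - 1) = -h (u p) (p - 1) := by
    conv_lhs => unfold h
    rw [← sum_range_reflect]
    unfold h
    rw [← sum_neg_distrib]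
    refine sum_congr rfl fun i hi => ?_
    rw [mem_range] at hi
    rw [show p - 1 - 1 - i + 1 = p - (i + 1) by omega, u_refl p _ (by omega)]
  have h2 := two_ne p h2p
  have h3 : 2 * h (u p) (p - 1) = 0 := by linear_combination h1
  exact (mul_eq_zero.mp h3).resolve_left h2

lemma h2_full (h3p : 3 < p) : h2 (u p) (p - 1) = 0 := by
  have h1 : ∑ x ∈ range p, ((x : ZMod p)) ^ (p - 3) = 0 := by
    have := Pool.Agent.Q278.RM.poly_sum p (Polynomial.X ^ (p - 3)) (by
      rw [Polynomial.natDegree_X_pow]; omega)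
    simpa using this
  have hr : p - 1 + 1 = p := by omega
  have h1' : ∑ x ∈ range (p - 1 + 1), ((x : ZMod p)) ^ (p - 3) = 0 := by rw [hr]; exact h1
  rw [sum_range_succ', Nat.cast_zero, zero_pow (by omega), add_zero] at h1'
  rw [← h1']
  unfold h2
  refine sum_congr rfl fun i hi => ?_
  rw [mem_range] at hi
  have hne : ((i + 1 : ℕ) : ZMod p) ≠ 0 := by
    intro h
    rw [ZMod.natCast_eq_zero_iff] at h
    exact absurd (Nat.le_of_dvd (by omega) h) (by omega)
  have h4 : ((i + 1 : ℕ) : ZMod p) ^ (p - 1) = 1 := ZMod.pow_card_sub_one_eq_one hne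
  unfold u
  rw [show p - 1 = (p - 3) + 2 by omega, pow_add] at h4
  rw [inv_pow]
  exact (eq_inv_of_mul_eq_one_left h4).symm

variable (m : ℕ) (hm : p = 2 * m + 1)

include hm in
lemma h2_half (h3p : 3 < p) : h2 (u p) m = 0 := by
  have h1 : h2 (u p) (2 * m) = 2 * h2 (u p) m := by
    unfold h2
    rw [show 2 * m = m + m by ring, sum_range_add, two_mul]
    congr 1
    rw [← sum_range_reflect]
    refine sum_congr rfl fun i hi => ?_
    rw [mem_range] at hi
    rw [show m + (m - 1 - i) + 1 = p - (i + 1) by omega, u_refl p _ (by omega), neg_sq]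
  have h2' := h2_full p h3p
  rw [show p - 1 = 2 * m by omega, h1] at h2'
  exact (mul_eq_zero.mp h2').resolve_left (two_ne p (by omega))

include hm in
lemma o2_half (h3p : 3 < p) : o2 (u p) m = 0 := by
  have h1 := h2_even (u p) p (u_mul p) (by omega) m (by omega)
  have h2' := h2_full p h3p
  rw [show p - 1 = 2 * m by omega] at h2'
  rw [h2', h2_half p m hm h3p] at h1
  have h2 := two_ne p (by omega)
  have h3 : (2 * 2 : ZMod p) * o2 (u p) m = 0 := by linear_combination -h1
  exact (mul_eq_zero.mp h3).resolve_left (mul_ne_zero h2 h2)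

include hm in
lemma h_half (h3p : 3 < p) : h (u p) m = -2 * o (u p) m := by
  have h1 := h_even (u p) p (u_mul p) (by omega) m (by omega)
  have h2' := h_full p (by omega)
  rw [show p - 1 = 2 * m by omega] at h2'
  rw [h2'] at h1
  linear_combination -h1

include hm in
/-- `∑ H_k/(2k+1)` -/
lemma sumA (h3p : 3 < p) : ∑ k ∈ range m, h (u p) k * u p (2 * k + 1) = -2 * o (u p) m ^ 2 := by
  have h0 := conv (u p) p (u_mul p) m (by omega)
  have h1 : ∑ k ∈ range m, h (u p) k * (2 * u p (2 * k + 1)) =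
      -∑ i ∈ range m, h (u p) (m - 1 - i) * u p (i + 1) := by
    rw [← sum_range_reflect, ← sum_neg_distrib]
    refine sum_congr rfl fun i hi => ?_
    rw [mem_range] at hi
    have h3 := iv_two (u p) p (u_mul p) (by omega) (i + 1) (by omega) (by omega)
    rw [show 2 * (m - 1 - i) + 1 = p - 2 * (i + 1) by omega, u_refl p _ (by omega)]
    linear_combination -h (u p) (m - 1 - i) * h3
  rw [h0, h2_half p m hm h3p, h_half p m hm h3p] at h1
  have h2 := two_ne p (by omega)
  apply mul_left_cancel₀ h2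
  have h4 : ∑ k ∈ range m, h (u p) k * (2 * u p (2 * k + 1)) =
      2 * ∑ k ∈ range m, h (u p) k * u p (2 * k + 1) := by
    rw [mul_sum]
    exact sum_congr rfl fun k _ => by ring
  linear_combination h1 - h4

include hm in
lemma sumQ (h3p : 3 < p) : ∑ i ∈ range m, o (u p) (i + 1) * u p (i + 1) = 0 := by
  have h2 := two_ne p (by omega)
  have key : ∀ i, i < m → 2 * o (u p) (i + 1) = -(h (u p) m - h (u p) (m - 1 - i)) := by
    intro i hi
    have h1 : h (u p) m = h (u p) (m - 1 - i) + ∑ l ∈ range (i + 1), u p (m - 1 - i + l + 1) := by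
      have : m = (m - 1 - i) + (i + 1) := by omega
      conv_lhs => rw [this]
      unfold h
      rw [sum_range_add]
    rw [h1, add_sub_cancel_left]
    unfold o
    rw [mul_sum, ← sum_neg_distrib, ← sum_range_reflect]
    refine sum_congr rfl fun l hl => ?_
    rw [mem_range] at hl
    have h3 := iv_two (u p) p (u_mul p) (by omega) (m - 1 - i + l + 1) (by omega) (by omega)
    rw [show 2 * (i + 1 - 1 - l) + 1 = p - 2 * (m - 1 - i + l + 1) by omega, u_refl p _ (by omega)]
    linear_combination -h3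
  have h1 : 2 * ∑ i ∈ range m, o (u p) (i + 1) * u p (i + 1) =
      -(h (u p) m * h (u p) m - ∑ i ∈ range m, h (u p) (m - 1 - i) * u p (i + 1)) := by
    have : h (u p) m * h (u p) m = ∑ i ∈ range m, h (u p) m * u p (i + 1) := by
      rw [← mul_sum]; rfl
    rw [this, mul_sum, ← sum_sub_distrib, ← sum_neg_distrib]
    refine sum_congr rfl fun i hi => ?_
    rw [mem_range] at hi
    linear_combination u p (i + 1) * key i hi
  rw [conv (u p) p (u_mul p) m (by omega), h2_half p m hm h3p] at h1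
  have h3 : 2 * ∑ i ∈ range m, o (u p) (i + 1) * u p (i + 1) = 0 := by
    rw [h1]; ring
  exact (mul_eq_zero.mp h3).resolve_left h2

/-- the alternating sum -/
def T {R : Type*} [CommRing R] (iv : ℕ → R) (m : ℕ) : R :=
  ∑ i ∈ range m, (h iv (2 * i) * iv (2 * i + 1) - h iv (2 * i + 1) * iv (2 * i + 2))

include hm in
lemma T_val (h3p : 3 < p) : T (u p) m = -(o (u p) m) ^ 2 := by
  have h2 := two_ne p (by omega)
  have s1 := sum_oo (u p) m
  have s2 := sum_hh (u p) m
  have s3 := sumA p m hm h3p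
  have s4 := sumQ p m hm h3p
  rw [o2_half p m hm h3p] at s1
  rw [h2_half p m hm h3p, h_half p m hm h3p] at s2
  have e1 : 4 * T (u p) m = 4 * ∑ k ∈ range m, o (u p) (k + 1) * u p (2 * k + 1) - 4 * o2 (u p) m +
      2 * ∑ k ∈ range m, h (u p) k * u p (2 * k + 1) -
      2 * ∑ i ∈ range m, o (u p) (i + 1) * u p (i + 1) - ∑ k ∈ range m, h (u p) k * u p (k + 1) := by
    unfold T o2
    rw [mul_sum, mul_sum, mul_sum, mul_sum, mul_sum, ← sum_sub_distrib, ← sum_add_distrib,
      ← sum_sub_distrib, ← sum_sub_distrib]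
    refine sum_congr rfl fun i hi => ?_
    rw [mem_range] at hi
    have a1 := h_even (u p) p (u_mul p) (by omega) i (by omega)
    have a2 := h_odd (u p) p (u_mul p) (by omega) i (by omega)
    have a3 := iv_two (u p) p (u_mul p) (by omega) (i + 1) (by omega) (by omega)
    have a4 := o_succ (u p) i
    rw [show 2 * (i + 1) = 2 * i + 2 by ring] at a3
    linear_combination 2 * u p (2 * i + 1) * a1 - 2 * u p (2 * i + 2) * a2 - 4 * u p (2 * i + 1) * a4 -
      (2 * o (u p) (i + 1) + h (u p) i) * a3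
  rw [o2_half p m hm h3p] at e1
  apply mul_left_cancel₀ (mul_ne_zero h2 h2)
  apply mul_left_cancel₀ h2
  linear_combination 2 * e1 + 4 * s1 + 4 * s3 - 4 * s4 - s2

end Pool.Agent.Q278.DB
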