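import Mathlib
import Pool.Agent.Q278.DB.Harm
import Pool.Agent.Q278.DB.Rec

/-! The Domb numbers `s_p` and `s_{p-1}` modulo `p³`. -/

set_option autoImplicit false

namespace Pool.Agent.Q278.DB

open Finset Pool.Agent.Q278.RM

/-- products -/
lemma pr_val {R : Type*} [CommRing R] (iv : ℕ → R) (t : R) (ht : t ^ 3 = 0) (k : ℕ) :
    2 * pr iv t k = 2 - 2 * t * h iv k + t ^ 2 * (h iv k ^ 2 - h2 iv k) := by
  induction k with
  | zero => simp [pr, h, h2]
  | succ k ih =>
    have e : pr iv t (k + 1) = pr iv t k * (1 - t * iv (k + 1)) := by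
      unfold pr; rw [prod_range_succ]
    rw [e, h_succ, h2_succ]
    linear_combination (1 - t * iv (k + 1)) * ih - iv (k + 1) * (h iv k ^ 2 - h2 iv k) * ht

lemma choose_pr {R : Type*} [CommRing R] (p : ℕ) (iv : ℕ → R)
    (hiv : ∀ j, 1 ≤ j → j < p → (j : R) * iv j = 1) (k : ℕ) (hk : k < p) :
    (-1 : R) ^ k * ((p - 1).choose k : R) = pr iv (p : R) k := by
  induction k with
  | zero => simp [pr]
  | succ k ih =>
    rw [choose_step p iv hiv k hk, ih (by omega)]
    unfold pr
    rw [prod_range_succ]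

lemma sum_pairs {R : Type*} [AddCommMonoid R] (f : ℕ → R) (m : ℕ) :
    ∑ k ∈ range (2 * m), f k = ∑ i ∈ range m, (f (2 * i) + f (2 * i + 1)) := by
  induction m with
  | zero => simp
  | succ m ih =>
    rw [show 2 * (m + 1) = 2 * m + 1 + 1 by ring, sum_range_succ, sum_range_succ, ih, sum_range_succ,
      add_assoc]

variable (p : ℕ) [hp : Fact p.Prime]

/-- the ring -/
abbrev R3 : Type := ZMod (p ^ 3)

lemma psi_u (j : ℕ) (h1 : 1 ≤ j) (h2 : j < p) : psi p (RM.iv p j) = u p j := psi_iv p j h1 h2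

lemma psi_h (k : ℕ) (hk : k < p) : psi p (h (RM.iv p) k) = h (u p) k := by
  unfold h
  rw [map_sum]
  refine sum_congr rfl fun i hi => ?_
  rw [mem_range] at hi
  exact psi_u p _ (by omega) (by omega)

lemma psi_h2 (k : ℕ) (hk : k < p) : psi p (h2 (RM.iv p) k) = h2 (u p) k := by
  unfold h2
  rw [map_sum]
  refine sum_congr rfl fun i hi => ?_
  rw [mem_range] at hi
  rw [map_pow, psi_u p _ (by omega) (by omega)]

lemma psi_o (k : ℕ) (hk : 2 * k ≤ p) : psi p (o (RM.iv p) k) = o (u p) k := by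
  unfold o
  rw [map_sum]
  refine sum_congr rfl fun i hi => ?_
  rw [mem_range] at hi
  exact psi_u p _ (by omega) (by omega)

lemma psi_o2 (k : ℕ) (hk : 2 * k ≤ p) : psi p (o2 (RM.iv p) k) = o2 (u p) k := by
  unfold o2
  rw [map_sum]
  refine sum_congr rfl fun i hi => ?_
  rw [mem_range] at hi
  rw [map_pow, psi_u p _ (by omega) (by omega)]

lemma two_cancel (h2p : 2 < p) {a b : R3 p} (h : 2 * a = 2 * b) : a = b := by
  have h2 := iv_mul p 2 (by norm_num) h2p
  push_cast at h2
  linear_combination RM.iv p 2 * h + (b - a) * h2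

lemma Ph (h3p : 3 < p) : (p : R3 p) * h (RM.iv p) (p - 1) = 0 := by
  have e1 : 2 * h (RM.iv p) (p - 1) = (p : R3 p) * ∑ i ∈ range (p - 1), RM.iv p (i + 1) * RM.iv p (p - (i + 1)) := by
    have : h (RM.iv p) (p - 1) = ∑ i ∈ range (p - 1), RM.iv p (p - (i + 1)) := by
      unfold h
      rw [← sum_range_reflect]
      refine sum_congr rfl fun i hi => ?_
      rw [mem_range] at hi
      rw [show p - 1 - 1 - i + 1 = p - (i + 1) by omega]
    rw [two_mul]
    conv_lhs => rw [this]
    have h0 : ∑ i ∈ range (p - 1), RM.iv p (p - (i + 1)) + ∑ i ∈ range (p - 1), RM.iv p (p - (i + 1)) =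
        ∑ i ∈ range (p - 1), RM.iv p (i + 1) + ∑ i ∈ range (p - 1), RM.iv p (p - (i + 1)) := by
      rw [← this]; rfl
    rw [h0, ← sum_add_distrib, mul_sum]
    refine sum_congr rfl fun i hi => ?_
    rw [mem_range] at hi
    have a1 := iv_mul p (i + 1) (by omega) (by omega)
    have a2 := iv_mul p (p - (i + 1)) (by omega) (by omega)
    have a3 : (p : R3 p) = ((i + 1 : ℕ) : R3 p) + ((p - (i + 1) : ℕ) : R3 p) := by
      rw [← Nat.cast_add]; congr 1; omega
    rw [a3]
    generalize RM.iv p (i + 1) = x at *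
    generalize RM.iv p (p - (i + 1)) = y at *
    linear_combination -y * a1 - x * a2
  have e2 : (p : R3 p) ^ 2 * ∑ i ∈ range (p - 1), RM.iv p (i + 1) * RM.iv p (p - (i + 1)) = 0 := by
    apply psi_zero
    have h4 : psi p (∑ i ∈ range (p - 1), RM.iv p (i + 1) * RM.iv p (p - (i + 1))) = -h2 (u p) (p - 1) := by
      unfold h2
      rw [map_sum, ← sum_neg_distrib]
      refine sum_congr rfl fun i hi => ?_
      rw [mem_range] at hi
      rw [map_mul, psi_u p _ (by omega) (by omega), psi_u p _ (by omega) (by omega), u_refl p _ (by omega)]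
      ring
    rw [h4, h2_full p h3p, neg_zero]
  apply two_cancel p (by omega)
  linear_combination (p : R3 p) * e1 + e2

variable (m : ℕ) (hm : p = 2 * m + 1)

/-- `y = p ∑ 1/(2i+1)` -/
def y : R3 p := (p : R3 p) * o (RM.iv p) m

lemma y_cube : (y p m) ^ 3 = 0 := by
  unfold y
  rw [mul_pow, p_cube, zero_mul]

include hm in
lemma Phm (h3p : 3 < p) : (p : R3 p) * h (RM.iv p) m = -2 * y p m := by
  have h1 := h_even (RM.iv p) p (iv_mul p) (by omega) m (by omega)
  have h2' := Ph p h3p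
  rw [show p - 1 = 2 * m by omega] at h2'
  unfold y
  linear_combination -(p : R3 p) * h1 + 2 * h2'

include hm in
lemma P2h2 (h3p : 3 < p) : (p : R3 p) ^ 2 * h2 (RM.iv p) m = 0 :=
  psi_zero p _ (by rw [psi_h2 p m (by omega), h2_half p m hm h3p])

include hm in
lemma P2o2 (h3p : 3 < p) : (p : R3 p) ^ 2 * o2 (RM.iv p) m = 0 :=
  psi_zero p _ (by rw [psi_o2 p m (by omega), o2_half p m hm h3p])

lemma P2h2full (h3p : 3 < p) : (p : R3 p) ^ 2 * h2 (RM.iv p) (p - 1) = 0 :=
  psi_zero p _ (by rw [psi_h2 p _ (by omega), h2_full p h3p])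

/-- Wolstenholme -/
lemma wolst (h3p : 3 < p) : ((p + (p - 1)).choose (p - 1) : R3 p) = 1 := by
  have h1 := Nat.ascFactorial_eq_factorial_mul_choose p (p - 1)
  rw [Nat.ascFactorial_eq_prod_range] at h1
  have h2' := congrArg (Nat.cast : ℕ → R3 p) h1
  push_cast at h2'
  have h3 : ∏ i ∈ range (p - 1), ((p : R3 p) + 1 + i) * RM.iv p (i + 1) = pr (RM.iv p) (-(p : R3 p)) (p - 1) := by
    unfold pr
    refine prod_congr rfl fun i hi => ?_
    rw [mem_range] at hi
    have a1 := iv_mul p (i + 1) (by omega) (by omega)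
    push_cast at a1
    linear_combination a1
  have h4 : ∀ k, k < p → (k.factorial : R3 p) * ∏ i ∈ range k, RM.iv p (i + 1) = 1 := by
    intro k
    induction k with
    | zero => intro _; simp
    | succ k ih =>
      intro hk
      rw [Nat.factorial_succ, prod_range_succ]
      have a1 := iv_mul p (k + 1) (by omega) hk
      have a2 := ih (by omega)
      push_cast at a1 ⊢
      generalize ∏ i ∈ range k, RM.iv p (i + 1) = z at *
      generalize (k.factorial : R3 p) = w at *
      linear_combination ((k : R3 p) + 1) * RM.iv p (k + 1) * a2 + a1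
  have h5 := pr_val (RM.iv p) (-(p : R3 p)) (by rw [neg_pow, p_cube]; ring) (p - 1)
  have h6 := Ph p h3p
  have h7 := P2h2full p h3p
  rw [prod_mul_distrib, h2'] at h3
  have h8 := h4 (p - 1) (by omega)
  apply two_cancel p (by omega)
  have h9 : ((p + (p - 1)).choose (p - 1) : R3 p) = pr (RM.iv p) (-(p : R3 p)) (p - 1) := by
    rw [← h3]
    linear_combination -(((p + (p - 1)).choose (p - 1) : ℕ) : R3 p) * h8
  rw [h9, h5]
  linear_combination (2 + (p : R3 p) * h (RM.iv p) (p - 1)) * h6 - h7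

lemma cb_p (h3p : 3 < p) : ((2 * p).choose p : R3 p) = 2 := by
  have h1 := wolst p h3p
  have h2 : (2 * p).choose p = 2 * (p + (p - 1)).choose (p - 1) := by
    obtain ⟨n, rfl⟩ : ∃ n, p = n + 1 := ⟨p - 1, by omega⟩
    rw [Nat.add_sub_cancel, show 2 * (n + 1) = (n + 1 + n) + 1 by ring, Nat.choose_succ_succ]
    have : (n + 1 + n).choose (n + 1) = (n + 1 + n).choose n := Nat.choose_symm_add
    rw [this]; ring
  rw [h2]
  push_cast
  rw [h1]; ring

lemma dvd_cb (k : ℕ) (h1 : k < p) (h2 : p ≤ 2 * k) : p ∣ (2 * k).choose k := by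
  have := hp.out.dvd_choose_add (a := k) (b := 2 * k - k) h1 (by omega) (by omega)
  rwa [show k + (2 * k - k) = 2 * k by omega] at this

/-- `s_p ≡ 4` -/
lemma s_p (h3p : 3 < p) : (s p : R3 p) = 4 := by
  unfold s
  rw [sum_range_succ, Nat.choose_self, Nat.sub_self]
  have hpp : p = (p - 1) + 1 := by omega
  have h1 : ∑ k ∈ range p, p.choose k ^ 2 * (2 * k).choose k * (2 * (p - k)).choose (p - k) =
      ∑ k ∈ range (p - 1), p.choose (k + 1) ^ 2 * (2 * (k + 1)).choose (k + 1) *
        (2 * (p - (k + 1))).choose (p - (k + 1)) + (2 * p).choose p := by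
    have : ∑ k ∈ range (p - 1 + 1), p.choose k ^ 2 * (2 * k).choose k * (2 * (p - k)).choose (p - k) =
      ∑ k ∈ range (p - 1), p.choose (k + 1) ^ 2 * (2 * (k + 1)).choose (k + 1) *
        (2 * (p - (k + 1))).choose (p - (k + 1)) + (2 * p).choose p := by
      rw [sum_range_succ']
      simp
    rw [← this]
    congr 2
  rw [h1]
  have h2 : ((∑ k ∈ range (p - 1), p.choose (k + 1) ^ 2 * (2 * (k + 1)).choose (k + 1) *
        (2 * (p - (k + 1))).choose (p - (k + 1)) : ℕ) : R3 p) = 0 := by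
    rw [ZMod.natCast_eq_zero_iff]
    apply dvd_sum
    intro k hk
    rw [mem_range] at hk
    have a1 : p ∣ p.choose (k + 1) := hp.out.dvd_choose_self (by omega) (by omega)
    have a2 : p ^ 2 ∣ p.choose (k + 1) ^ 2 := pow_dvd_pow_of_dvd a1 2
    have a3 : p ∣ (2 * (k + 1)).choose (k + 1) * (2 * (p - (k + 1))).choose (p - (k + 1)) := by
      rcases Nat.lt_or_ge (2 * (k + 1)) p with h | h
      · exact Dvd.dvd.mul_left (dvd_cb p _ (by omega) (by omega)) _
      · exact Dvd.dvd.mul_right (dvd_cb p _ (by omega) h) _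
    rw [mul_assoc, pow_succ]
    exact mul_dvd_mul a2 a3
  push_cast at h2 ⊢
  rw [h2, cb_p p h3p]
  simp
  norm_num

/-- the terms of `s_{p-1}` -/
def tt (k : ℕ) : ℕ := (p - 1).choose k ^ 2 * (2 * k).choose k * (2 * (p - 1 - k)).choose (p - 1 - k)

lemma cb_nat (j : ℕ) : (2 * (j + 1)).choose (j + 1) * (j + 1) = 2 * (2 * j + 1) * (2 * j).choose j := by
  have h := Nat.succ_mul_centralBinom_succ j
  unfold Nat.centralBinom at h
  rw [mul_comm, h]

lemma tt_zero (h3p : 3 < p) : (tt p 0 : R3 p) = -(p : R3 p) * (1 + 2 * p) := by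
  have h0 : tt p 0 = (2 * (p - 1)).choose (p - 1) := by
    unfold tt; simp
  have h1 : (2 * p - 1) * (2 * (p - 1)).choose (p - 1) = (p + (p - 1)).choose (p - 1) * p := by
    obtain ⟨n, rfl⟩ : ∃ n, p = n + 1 := ⟨p - 1, by omega⟩
    rw [Nat.add_sub_cancel, show 2 * (n + 1) - 1 = 2 * n + 1 by omega]
    have := Nat.add_one_mul_choose_eq (2 * n) n
    rw [this, show 2 * n + 1 = n + 1 + n by ring]
    have : (n + 1 + n).choose (n + 1) = (n + 1 + n).choose n := Nat.choose_symm_add
    rw [this]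
  have h2 := congrArg (Nat.cast : ℕ → R3 p) h1
  rw [Nat.cast_mul, Nat.cast_mul, Nat.cast_sub (by omega)] at h2
  push_cast at h2
  rw [wolst p h3p] at h2
  rw [h0]
  have h3 := p_cube p
  generalize (((2 * (p - 1)).choose (p - 1) : ℕ) : R3 p) = t at *
  generalize (p : R3 p) = P at *
  have h4 : P ^ 2 * t = 0 := by linear_combination (2 * t - 1) * h3 - P ^ 2 * h2
  linear_combination (-1 - 2 * P) * h2 + 4 * h4

lemma tt_step (k : ℕ) (hk : 2 * k + 3 < p) : (tt p (k + 1) : R3 p) * ((2 * k + 3) - 2 * p) =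
    (2 * k + 1) * tt p k * (1 - p * RM.iv p (k + 1)) ^ 3 := by
  have a1 := cb_nat k
  have a2 := cb_nat (p - 1 - (k + 1))
  rw [show p - 1 - (k + 1) + 1 = p - 1 - k by omega] at a2
  have b1 := congrArg (Nat.cast : ℕ → R3 p) a1
  have b2 := congrArg (Nat.cast : ℕ → R3 p) a2
  have e1 : ((p - 1 - (k + 1) : ℕ) : R3 p) = (p : R3 p) - 2 - k := by
    rw [Nat.cast_sub (by omega), Nat.cast_sub (by omega)]; push_cast; ring
  have e2 : ((p - 1 - k : ℕ) : R3 p) = (p : R3 p) - 1 - k := by
    rw [Nat.cast_sub (by omega), Nat.cast_sub (by omega)]; push_cast; ring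
  have a3 := choose_step p (RM.iv p) (iv_mul p) k (by omega)
  have a4 := iv_mul p (k + 1) (by omega) (by omega)
  rw [Nat.cast_mul, Nat.cast_mul, Nat.cast_mul, Nat.cast_add, Nat.cast_mul, e1, e2] at b2
  push_cast at b1 b2 a4
  have hs : ((-1 : R3 p) ^ k) ^ 2 = 1 := by rw [← pow_mul, mul_comm, pow_mul]; simp
  have a5 : ((p - 1).choose (k + 1) : R3 p) = -((p - 1).choose k : R3 p) * (1 - p * RM.iv p (k + 1)) := by
    rw [pow_succ (-1 : R3 p) k] at a3
    generalize (-1 : R3 p) ^ k = σ at *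
    linear_combination (-σ) * a3 - (((p - 1).choose (k + 1) : R3 p) + ((p - 1).choose k : R3 p) * (1 - p * RM.iv p (k + 1))) * hs
  unfold tt
  push_cast
  rw [a5]
  apply two_cancel p (by omega)
  generalize ((p - 1).choose k : R3 p) = a at *
  generalize ((2 * (k + 1)).choose (k + 1) : R3 p) = c1 at *
  generalize ((2 * k).choose k : R3 p) = c0 at *
  generalize ((2 * (p - 1 - (k + 1))).choose (p - 1 - (k + 1)) : R3 p) = d1 at *
  generalize ((2 * (p - 1 - k)).choose (p - 1 - k) : R3 p) = d0 at *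
  generalize RM.iv p (k + 1) = v at *
  generalize (p : R3 p) = P at *
  generalize (k : R3 p) = K at *
  linear_combination a ^ 2 * (1 - P * v) ^ 2 * (c1 * b2 + d0 * (1 - P * v) * b1 + c1 * d0 * P * a4)

include hm in
/-- the values of the terms -/
lemma tt_val (h3p : 3 < p) (k : ℕ) (hk : k < m) : (2 * k + 1) * (tt p k : R3 p) =
    -(p : R3 p) * (1 - 3 * p * h (RM.iv p) k + 2 * p * o (RM.iv p) (k + 1)) := by
  have h3 := p_cube p
  induction k with
  | zero =>
    rw [tt_zero p h3p]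
    have h1 : h (RM.iv p) 0 = 0 := by simp [h]
    have h4 : o (RM.iv p) (0 + 1) = RM.iv p 1 := by simp [o]
    have h5 := iv_mul p 1 (by norm_num) (by omega)
    rw [h1, h4]
    push_cast at *
    generalize RM.iv p 1 = v at *
    generalize (p : R3 p) = P at *
    linear_combination 2 * P ^ 2 * h5
  | succ k ih =>
    have ih' := ih (by omega)
    have st := tt_step p k (by omega)
    have w := iv_mul p (2 * k + 3) (by omega) (by omega)
    rw [h_succ, o_succ, show 2 * (k + 1) + 1 = 2 * k + 3 by ring]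
    push_cast at *
    generalize (tt p (k + 1) : R3 p) = t1 at *
    generalize (tt p k : R3 p) = t0 at *
    generalize RM.iv p (k + 1) = v at *
    generalize RM.iv p (2 * k + 3) = z at *
    generalize h (RM.iv p) k = H at *
    generalize o (RM.iv p) (k + 1) = O at *
    generalize (p : R3 p) = P at *
    generalize (k : R3 p) = K at *
    -- t1 (2K+3-2P) = -P (1 - 3P(H+v) + 2PO)
    have e1 : t1 * ((2 * K + 3) - 2 * P) = -P * (1 - 3 * P * (H + v) + 2 * P * O) := by
      linear_combination st + (1 - P * v) ^ 3 * ih' +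
        (-3 * v ^ 2 + P * v ^ 3 + (3 * H - 2 * O) * (-3 * v + 3 * P * v ^ 2 - P ^ 2 * v ^ 3)) * h3
    -- P^2 t1 (2K+3) = 0
    have e2 : P ^ 2 * t1 = 0 := by
      linear_combination z * P ^ 2 * e1 - P ^ 2 * t1 * w +
        z * (2 * t1 - 1 + P * (3 * (H + v) - 2 * O)) * h3
    have e3 : t1 * z * P = t1 * z * P := rfl
    -- (2K+3) t1 (1 - 2P z) = e1
    linear_combination (1 + 2 * P * z) * e1 + 4 * z * e2 - 2 * P * t1 * w +
        (6 * z * (H + v) - 4 * z * O) * h3

end Pool.Agent.Q278.DB
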