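import Mathlib
import Pool.Agent.Q278.DB.Rp
import Pool.Agent.Q278.DB.Div

/-! `s_{p-1}` modulo `p³` and the final congruence; parity. -/

set_option autoImplicit false

namespace Pool.Agent.Q278.DB

open Finset Pool.Agent.Q278.RM

variable (p : ℕ) [hp : Fact p.Prime] (m : ℕ) (hm : p = 2 * m + 1)

include hm in
lemma tt_sum (h3p : 3 < p) : ∑ k ∈ range m, (tt p k : R3 p) = -(y p m) - 7 * (y p m) ^ 2 := by
  have h3 := p_cube p
  have h1 : ∀ k ∈ range m, (tt p k : R3 p) = -(p : R3 p) * RM.iv p (2 * k + 1) +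
      3 * (p : R3 p) ^ 2 * (h (RM.iv p) k * RM.iv p (2 * k + 1)) -
      (p : R3 p) ^ 2 * (2 * (o (RM.iv p) (k + 1) * RM.iv p (2 * k + 1))) := by
    intro k hk
    rw [mem_range] at hk
    have a1 := tt_val p m hm h3p k hk
    have a2 := iv_mul p (2 * k + 1) (by omega) (by omega)
    push_cast at a2
    linear_combination RM.iv p (2 * k + 1) * a1 - (tt p k : R3 p) * a2
  rw [sum_congr rfl h1, sum_sub_distrib, sum_add_distrib, ← mul_sum, ← mul_sum, ← mul_sum, ← mul_sum,
    sum_oo]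
  have e1 : (p : R3 p) ^ 2 * (∑ k ∈ range m, h (RM.iv p) k * RM.iv p (2 * k + 1) +
      2 * o (RM.iv p) m ^ 2) = 0 := by
    apply psi_zero
    rw [map_add, map_sum, map_mul, map_pow, psi_o p m (by omega), map_ofNat]
    have : ∑ k ∈ range m, psi p (h (RM.iv p) k * RM.iv p (2 * k + 1)) =
        ∑ k ∈ range m, h (u p) k * u p (2 * k + 1) := by
      refine sum_congr rfl fun k hk => ?_
      rw [mem_range] at hk
      rw [map_mul, psi_h p k (by omega), psi_u p _ (by omega) (by omega)]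
    rw [this, sumA p m hm h3p]
    ring
  have e2 := P2o2 p m hm h3p
  have e3 : ∑ k ∈ range m, RM.iv p (2 * k + 1) = o (RM.iv p) m := rfl
  rw [e3]
  unfold y
  linear_combination 3 * e1 - e2

include hm in
lemma cm_val (h3p : 3 < p) : ((2 * m).choose m : R3 p) ^ 4 = 1 + 8 * y p m + 32 * (y p m) ^ 2 := by
  have h1 := choose_pr p (RM.iv p) (iv_mul p) m (by omega)
  have h2' := pr_val (RM.iv p) (p : R3 p) (p_cube p) m
  have h4 := Phm p m hm h3p
  have h5 := P2h2 p m hm h3p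
  have h6 := y_cube p m
  have e1 : pr (RM.iv p) (p : R3 p) m = 1 + 2 * y p m + 2 * y p m ^ 2 := by
    apply two_cancel p (by omega)
    linear_combination h2' + (-2 + (p : R3 p) * h (RM.iv p) m - 2 * y p m) * h4 - h5
  rw [show p - 1 = 2 * m by omega] at h1
  have e2 : ((2 * m).choose m : R3 p) ^ 4 = (pr (RM.iv p) (p : R3 p) m) ^ 4 := by
    rw [← h1, mul_pow, ← pow_mul, mul_comm m 4, pow_mul]
    norm_num
  rw [e2, e1]
  generalize y p m = y at *
  linear_combination (80 + 136 * y + 160 * y ^ 2 + 128 * y ^ 3 + 64 * y ^ 4 + 16 * y ^ 5) * h6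

lemma tt_symm (k : ℕ) (hk : k ≤ p - 1) : tt p (p - 1 - k) = tt p k := by
  unfold tt
  rw [Nat.choose_symm hk, show p - 1 - (p - 1 - k) = k by omega]
  ring

include hm in
/-- `s_{p-1}` -/
lemma s_pm (h3p : 3 < p) : (s (p - 1) : R3 p) = 1 + 6 * y p m + 18 * (y p m) ^ 2 := by
  have h1 : s (p - 1) = ∑ k ∈ range (m + (1 + m)), tt p k := by
    unfold s tt
    rw [show p - 1 + 1 = m + (1 + m) by omega]
  have h2 : ∑ k ∈ range (m + (1 + m)), tt p k = ∑ k ∈ range m, tt p k + (tt p m + ∑ k ∈ range m, tt p k) := by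
    rw [sum_range_add, sum_range_add, sum_range_one, add_zero]
    congr 2
    rw [← sum_range_reflect]
    refine sum_congr rfl fun k hk => ?_
    rw [mem_range] at hk
    rw [← tt_symm p k (by omega)]
    congr 1
    omega
  rw [h1, h2]
  push_cast
  rw [tt_sum p m hm h3p]
  have h3 : (tt p m : R3 p) = ((2 * m).choose m : R3 p) ^ 4 := by
    unfold tt
    rw [show p - 1 - m = m by omega, show p - 1 = 2 * m by omega]
    push_cast
    ring
  rw [h3, cm_val p m hm h3p]
  ring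

include hm in
lemma psi_T : psi p (T (RM.iv p) m) = T (u p) m := by
  unfold T
  rw [map_sum]
  refine sum_congr rfl fun i hi => ?_
  rw [mem_range] at hi
  rw [map_sub, map_mul, map_mul, psi_h p _ (by omega), psi_h p _ (by omega), psi_u p _ (by omega) (by omega),
    psi_u p _ (by omega) (by omega)]

include hm in
/-- Fermat quotients -/
lemma two_pow (h3p : 3 < p) : 2 * ((2 : R3 p) ^ (p - 1) - 1) = 2 * y p m + (y p m) ^ 2 := by
  have h0 := Nat.sum_range_choose p
  have hr : p + 1 = (p - 1) + 1 + 1 := by omega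
  have h1 : ∑ k ∈ range (p + 1), p.choose k = ∑ k ∈ range (p - 1), p.choose (k + 1) + 2 := by
    rw [hr, sum_range_succ, sum_range_succ']
    rw [show p - 1 + 1 = p by omega]
    simp
  rw [h1] at h0
  have hz := congrArg (Nat.cast : ℕ → R3 p) h0
  push_cast at hz
  have h3 : ∀ k ∈ range (p - 1), (p.choose (k + 1) : R3 p) =
      (-1) ^ k * RM.iv p (k + 1) * ((p : R3 p) - (p : R3 p) ^ 2 * h (RM.iv p) k) := by
    intro k hk
    rw [mem_range] at hk
    have a1 := Nat.add_one_mul_choose_eq (p - 1) k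
    rw [show p - 1 + 1 = p by omega] at a1
    have a2 := congrArg (Nat.cast : ℕ → R3 p) a1
    push_cast at a2
    have a3 := choose_pr p (RM.iv p) (iv_mul p) k (by omega)
    have a4 := pr_val (RM.iv p) (p : R3 p) (p_cube p) k
    have a5 := iv_mul p (k + 1) (by omega) (by omega)
    have a6 : ((-1 : R3 p) ^ k) ^ 2 = 1 := by rw [← pow_mul, mul_comm, pow_mul]; simp
    have a7 := p_cube p
    push_cast at a5
    generalize (p.choose (k + 1) : R3 p) = c1 at *
    generalize ((p - 1).choose k : R3 p) = c0 at *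
    generalize RM.iv p (k + 1) = v at *
    generalize pr (RM.iv p) (p : R3 p) k = π at *
    apply two_cancel p (by omega)
    generalize (-1 : R3 p) ^ k = σ at *
    generalize h (RM.iv p) k = H at *
    generalize h2 (RM.iv p) k = H2 at *
    generalize (p : R3 p) = P at *
    linear_combination (-2 * v) * a2 + (-2 * c1) * a5 + 2 * P * v * σ * a3 - 2 * P * v * c0 * a6 +
      P * v * σ * a4 + v * σ * (H ^ 2 - H2) * a7
  rw [sum_congr rfl h3, show p - 1 = 2 * m by omega, sum_pairs] at hz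
  have h4 : ∀ i ∈ range m, ((-1 : R3 p) ^ (2 * i) * RM.iv p (2 * i + 1) * ((p : R3 p) - (p : R3 p) ^ 2 * h (RM.iv p) (2 * i)) +
      (-1 : R3 p) ^ (2 * i + 1) * RM.iv p (2 * i + 1 + 1) * ((p : R3 p) - (p : R3 p) ^ 2 * h (RM.iv p) (2 * i + 1))) =
      (p : R3 p) * RM.iv p (2 * i + 1) - (p : R3 p) * RM.iv p (2 * (i + 1)) - (p : R3 p) ^ 2 *
        (h (RM.iv p) (2 * i) * RM.iv p (2 * i + 1) - h (RM.iv p) (2 * i + 1) * RM.iv p (2 * i + 2)) := by
    intro i _
    have a1 : (-1 : R3 p) ^ (2 * i) = 1 := by rw [pow_mul]; simp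
    rw [pow_succ (-1 : R3 p) (2 * i), a1, show 2 * i + 1 + 1 = 2 * i + 2 by ring, show 2 * (i + 1) = 2 * i + 2 by ring]
    ring
  rw [sum_congr rfl h4, sum_sub_distrib, sum_sub_distrib, ← mul_sum, ← mul_sum, ← mul_sum] at hz
  have e1 : ∑ i ∈ range m, RM.iv p (2 * i + 1) = o (RM.iv p) m := rfl
  have e2 : ∑ i ∈ range m, (h (RM.iv p) (2 * i) * RM.iv p (2 * i + 1) -
      h (RM.iv p) (2 * i + 1) * RM.iv p (2 * i + 2)) = T (RM.iv p) m := rfl
  have e3 : 2 * ∑ i ∈ range m, RM.iv p (2 * (i + 1)) = h (RM.iv p) m := by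
    unfold h
    rw [mul_sum]
    refine sum_congr rfl fun i hi => ?_
    rw [mem_range] at hi
    exact iv_two (RM.iv p) p (iv_mul p) (by omega) (i + 1) (by omega) (by omega)
  rw [e1, e2] at hz
  have e4 : (p : R3 p) ^ 2 * (T (RM.iv p) m + o (RM.iv p) m ^ 2) = 0 := by
    apply psi_zero
    rw [map_add, psi_T p m hm, map_pow, psi_o p m (by omega), T_val p m hm h3p]
    ring
  have e5 := Phm p m hm h3p
  have e6 : (2 : R3 p) ^ p = 2 * 2 ^ (p - 1) := by
    rw [← pow_succ', show p - 1 + 1 = p by omega]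
  have hy : y p m = (p : R3 p) * o (RM.iv p) m := rfl
  rw [e6] at hz
  apply two_cancel p (by omega)
  rw [hy] at e5 ⊢
  linear_combination -2 * hz - (p : R3 p) * e3 - e5 - 2 * e4

include hm in
/-- `s_p - 4 s_{p-1}` -/
theorem final_R (h3p : 3 < p) : (s p : R3 p) - 4 * s (p - 1) = 6 * 16 ^ (p - 1) *
    (-4 * ((2 : R3 p) ^ (p - 1) - 1) + 6 * ((2 : R3 p) ^ (p - 1) - 1) ^ 2) := by
  rw [s_p p h3p, s_pm p m hm h3p]
  have h1 := two_pow p m hm h3p
  have h2 := y_cube p m
  have h3 := iv_mul p 2 (by norm_num) (by omega)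
  push_cast at h3
  have h4 : (16 : R3 p) ^ (p - 1) = ((2 : R3 p) ^ (p - 1)) ^ 4 := by
    rw [← pow_mul, mul_comm, pow_mul]; norm_num
  rw [h4]
  generalize (2 : R3 p) ^ (p - 1) = Q at *
  generalize RM.iv p 2 = e at *
  generalize y p m = y at *
  obtain ⟨x, rfl⟩ : ∃ x, Q = x + 1 := ⟨Q - 1, by ring⟩
  rw [add_sub_cancel_right] at *
  have hx : x = y + e * y ^ 2 := by linear_combination e * h1 + (y - x) * h3
  have hx2 : x ^ 2 = y ^ 2 := by
    rw [hx]
    linear_combination (2 * e + e ^ 2 * y) * h2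
  have hx3 : x ^ 3 = 0 := by
    have : x ^ 3 = x ^ 2 * x := by ring
    rw [this, hx2, hx]
    linear_combination (1 + e * y) * h2
  have hrhs : 6 * (x + 1) ^ 4 * (-4 * x + 6 * x ^ 2) = -24 * x - 60 * x ^ 2 := by
    linear_combination (120 * x + 120 * x ^ 2 + 36 * x ^ 3) * hx3
  rw [hrhs, hx2]
  linear_combination 12 * h1

end Pool.Agent.Q278.DB
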