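import Mathlib
import Pool.Agent.Q278.DB.Div

/-! The parity of `X_n`. -/

set_option autoImplicit false

namespace Pool.Agent.Q278.DB

open Finset

lemma cat_odd_step (j : ℕ) : (catalan (2 * j + 1) : ZMod 2) = (catalan j : ZMod 2) := by
  rw [catalan_succ', Finset.Nat.sum_antidiagonal_eq_sum_range_succ (fun a b => catalan a * catalan b) (2 * j)]
  push_cast
  rw [show (2 * j).succ = j + (1 + j) by omega, sum_range_add, sum_range_add, sum_range_one, add_zero,
    show 2 * j - j = j by omega]
  have h1 : ∑ i ∈ range j, (catalan (j + (1 + i)) : ZMod 2) * (catalan (2 * j - (j + (1 + i))) : ZMod 2) =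
      ∑ i ∈ range j, (catalan i : ZMod 2) * (catalan (2 * j - i) : ZMod 2) := by
    rw [← sum_range_reflect]
    refine sum_congr rfl fun i hi => ?_
    rw [mem_range] at hi
    rw [mul_comm, show 2 * j - (j + (1 + (j - 1 - i))) = i by omega,
      show j + (1 + (j - 1 - i)) = 2 * j - i by omega]
  rw [h1]
  generalize ∑ i ∈ range j, (catalan i : ZMod 2) * (catalan (2 * j - i) : ZMod 2) = a
  generalize (catalan j : ZMod 2) = b
  revert a b
  decide

lemma cat_even_step (j : ℕ) : (catalan (2 * j + 2) : ZMod 2) = 0 := by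
  rw [show 2 * j + 2 = (2 * j + 1) + 1 by ring, catalan_succ',
    Finset.Nat.sum_antidiagonal_eq_sum_range_succ (fun a b => catalan a * catalan b) (2 * j + 1)]
  push_cast
  rw [show (2 * j + 1).succ = (j + 1) + (j + 1) by omega, sum_range_add]
  have h1 : ∑ i ∈ range (j + 1), (catalan (j + 1 + i) : ZMod 2) * (catalan (2 * j + 1 - (j + 1 + i)) : ZMod 2) =
      ∑ i ∈ range (j + 1), (catalan i : ZMod 2) * (catalan (2 * j + 1 - i) : ZMod 2) := by
    rw [← sum_range_reflect]
    refine sum_congr rfl fun i hi => ?_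
    rw [mem_range] at hi
    rw [mul_comm, show 2 * j + 1 - (j + 1 + (j + 1 - 1 - i)) = i by omega,
      show j + 1 + (j + 1 - 1 - i) = 2 * j + 1 - i by omega]
  rw [h1]
  generalize ∑ i ∈ range (j + 1), (catalan i : ZMod 2) * (catalan (2 * j + 1 - i) : ZMod 2) = a
  revert a
  decide

lemma odd_iff (n : ℕ) : Odd n ↔ (n : ZMod 2) = 1 := by
  rw [← Nat.not_even_iff_odd, ← ZMod.natCast_eq_zero_iff_even]
  constructor
  · intro h
    generalize (n : ZMod 2) = a at *
    revert a
    decide
  · intro h
    rw [h]
    decide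

/-- Catalan numbers are odd exactly at `2^a - 1` -/
lemma cat_odd (n : ℕ) : Odd (catalan n) ↔ ∃ a, n + 1 = 2 ^ a := by
  induction n using Nat.strong_induction_on with
  | _ n ih =>
    rcases Nat.even_or_odd' n with ⟨j, rfl | rfl⟩
    · rcases j with _ | j
      · simp only [mul_zero, catalan_zero]
        exact ⟨fun _ => ⟨0, rfl⟩, fun _ => odd_one⟩
      · rw [odd_iff, show 2 * (j + 1) = 2 * j + 2 by ring, cat_even_step]
        constructor
        · intro h; exact absurd h (by decide)
        · rintro ⟨a, ha⟩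
          rcases a with _ | a
          · simp at ha
          · rw [pow_succ] at ha; omega
    · rw [odd_iff, cat_odd_step, ← odd_iff, ih j (by omega)]
      constructor
      · rintro ⟨a, ha⟩
        exact ⟨a + 1, by rw [pow_succ]; omega⟩
      · rintro ⟨a, ha⟩
        rcases a with _ | a
        · simp at ha
        · exact ⟨a, by rw [pow_succ] at ha; omega⟩

lemma Xn_odd (n : ℕ) (hn : 1 ≤ n) : Odd (Xn n) ↔ ∃ a, n + 1 = 2 ^ a := by
  rw [← cat_odd, odd_iff, odd_iff]
  have h1 : (Xn n : ZMod 2) = catalan n := by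
    unfold Xn
    rw [sum_range_succ']
    push_cast
    rw [sum_eq_zero]
    · simp [show 0 < n by omega]
    · intro k _
      have h2 : ((2 * (k + 1)).choose (k + 1) : ZMod 2) = 0 := by
        rw [ZMod.natCast_eq_zero_iff_even]
        have := Nat.two_dvd_centralBinom_succ k
        unfold Nat.centralBinom at this
        exact (even_iff_two_dvd).mpr this
      rw [h2]
      ring
  rw [h1]

end Pool.Agent.Q278.DB
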